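import Pool.Agent.Lib.MP_2f16e6_an.Exists
import Pool.Agent.Lib.MP_2f16e6_an.Family

set_option autoImplicit false

namespace Pool.Agent.Results.MP_2f16e6_an.Continuum

universe u v

/-- the Banach-Mazur distance -/
noncomputable def bmDist (E : Type u) (F : Type v) [NormedAddCommGroup E] [NormedSpace ℝ E]
    [NormedAddCommGroup F] [NormedSpace ℝ F] : ℝ :=
  sInf {r | ∃ T : E ≃L[ℝ] F, r = ‖(T : E →L[ℝ] F)‖ * ‖(T.symm : F →L[ℝ] E)‖}

/-- `Y` is finitely crudely representable in `X` -/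
def CrudelyRep (Y : Type u) (X : Type v) [NormedAddCommGroup Y] [NormedSpace ℝ Y]
    [NormedAddCommGroup X] [NormedSpace ℝ X] : Prop :=
  ∃ lam : ℝ, 1 ≤ lam ∧ ∀ E : Submodule ℝ Y, FiniteDimensional ℝ E →
    ∃ F : Submodule ℝ X, FiniteDimensional ℝ F ∧ Module.finrank ℝ F = Module.finrank ℝ E ∧
      bmDist E F ≤ lam

/-- property (D) -/
def PropertyD (X : Type) [NormedAddCommGroup X] [NormedSpace ℝ X] : Prop :=
  ∀ (Y : Type u) [NormedAddCommGroup Y] [NormedSpace ℝ Y] [CompleteSpace Y]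
    [TopologicalSpace.SeparableSpace Y], CrudelyRep X Y → CrudelyRep Y X → Nonempty (Y ≃L[ℝ] X)

theorem to_embed {Y : Type u} {X : Type v} [NormedAddCommGroup Y] [NormedSpace ℝ Y]
    [NormedAddCommGroup X] [NormedSpace ℝ X] (h : CrudelyRep Y X) :
    ∃ K : ℝ, 1 ≤ K ∧ ∀ E : Submodule ℝ Y, FiniteDimensional ℝ E →
      ∃ T : E →ₗ[ℝ] X, ∃ c : ℝ, 0 < c ∧ ∀ y : E, c * ‖y‖ ≤ ‖T y‖ ∧ ‖T y‖ ≤ K * c * ‖y‖ := by
  obtain ⟨lam, h1, h⟩ := h
  refine ⟨lam + 1, by linarith, fun E hE => ?_⟩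
  obtain ⟨F, hF, h2, h3⟩ := h E hE
  obtain ⟨_, ⟨T, rfl⟩, h4⟩ := exists_lt_of_csInf_lt
    (s := {r | ∃ T : E ≃L[ℝ] F, r = ‖(T : E →L[ℝ] F)‖ * ‖(T.symm : F →L[ℝ] E)‖})
    ⟨_, ContinuousLinearEquiv.ofFinrankEq h2.symm, rfl⟩ (h3.trans_lt (lt_add_one lam))
  have a1 : ∀ y : E, ‖y‖ ≤ ‖(T.symm : F →L[ℝ] E)‖ * ‖T y‖ := fun y => by
    simpa using (T.symm : F →L[ℝ] E).le_opNorm (T y)
  rcases (norm_nonneg (T.symm : F →L[ℝ] E)).eq_or_lt with h0 | h0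
  · refine ⟨0, 1, one_pos, fun y => ?_⟩
    have := a1 y
    rw [← h0, zero_mul] at this
    simp [le_antisymm this (norm_nonneg _)]
  · refine ⟨F.subtype ∘ₗ T.toLinearEquiv.toLinearMap, ‖(T.symm : F →L[ℝ] E)‖⁻¹, by positivity,
      fun y => ⟨?_, ?_⟩⟩
    · rw [inv_mul_le_iff₀ h0]; exact a1 y
    · refine ((T : E →L[ℝ] F).le_opNorm y).trans (mul_le_mul_of_nonneg_right ?_ (norm_nonneg _))
      rw [← div_eq_mul_inv, le_div_iff₀ h0]
      exact h4.le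

theorem exists_copy (Y : Type u) [NormedAddCommGroup Y] [NormedSpace ℝ Y]
    [TopologicalSpace.SeparableSpace Y] :
    ∃ (Z : Type) (_ : NormedAddCommGroup Z) (_ : NormedSpace ℝ Z), Nonempty (Z ≃ₗᵢ[ℝ] Y) := by
  have : Small.{0} Y := by
    refine small_of_injective (f := fun y n => dist y (TopologicalSpace.denseSeq Y n))
      fun a b h => eq_of_forall_dist_le fun ε hε => ?_
    obtain ⟨n, hn⟩ := (TopologicalSpace.denseRange_denseSeq Y).exists_dist_lt a (half_pos hε)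
    have e : dist a _ = dist b _ := congrFun h n
    linarith [dist_triangle_right a b (TopologicalSpace.denseSeq Y n)]
  exact ⟨Shrink.{0} Y, inferInstance, inferInstance,
    ⟨{ Shrink.linearEquiv ℝ Y with norm_map' := fun _ => rfl }⟩⟩

theorem result : ∃ (X : ℝ → Type) (_ : ∀ t, NormedAddCommGroup (X t))
    (_ : ∀ t, NormedSpace ℝ (X t)),
    (∀ t, CompleteSpace (X t) ∧ TopologicalSpace.SeparableSpace (X t) ∧
      ¬ FiniteDimensional ℝ (X t) ∧ PropertyD.{u} (X t) ∧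
      IsEmpty (X t ≃L[ℝ] lp (fun _ : ℕ => ℝ) 2)) ∧
    ∀ s t, s ≠ t → ¬ CrudelyRep (X s) (X t) := by
  obtain ⟨R⟩ := Pool.Agent.JLS.exists_rigid
  obtain ⟨F, hF⟩ := R.exists_family
  refine ⟨fun t => (F t).X, inferInstance, inferInstance, fun t => ⟨inferInstance, inferInstance,
    (F t).not_finiteDimensional, fun Y _ _ _ _ h1 h2 => ?_, not_nonempty_iff.1 (F t).not_l2⟩,
    fun s t hst h => hF s t hst (to_embed h)⟩
  obtain ⟨Z, _, _, ⟨e⟩⟩ := exists_copy Y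
  have : CompleteSpace Z := e.toIsometryEquiv.completeSpace_iff.2 inferInstance
  have : TopologicalSpace.SeparableSpace Z :=
    e.symm.surjective.denseRange.separableSpace e.symm.continuous
  obtain ⟨K1, a1, b1⟩ := to_embed h1
  obtain ⟨K2, a2, b2⟩ := to_embed h2
  obtain ⟨f⟩ := (F t).propD Z ⟨K2, a2, fun E hE => by
    obtain ⟨T, c, hc, hT⟩ := b2 (E.map (e.toLinearEquiv : Z →ₗ[ℝ] Y)) inferInstance
    refine ⟨T ∘ₗ (e.toLinearEquiv : Z →ₗ[ℝ] Y).submoduleMap E, c, hc, fun y => ?_⟩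
    have := hT ((e.toLinearEquiv : Z →ₗ[ℝ] Y).submoduleMap E y)
    rwa [show ‖(e.toLinearEquiv : Z →ₗ[ℝ] Y).submoduleMap E y‖ = ‖y‖ from e.norm_map y] at this⟩
    ⟨K1, a1, fun E hE => by
      obtain ⟨T, c, hc, hT⟩ := b1 E hE
      refine ⟨(e.symm.toLinearEquiv : Y →ₗ[ℝ] Z) ∘ₗ T, c, hc, fun y => ?_⟩
      rw [show ‖((e.symm.toLinearEquiv : Y →ₗ[ℝ] Z) ∘ₗ T) y‖ = ‖T y‖ from e.symm.norm_map _]
      exact hT y⟩
  exact ⟨e.symm.toContinuousLinearEquiv.trans f⟩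

end Pool.Agent.Results.MP_2f16e6_an.Continuum
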